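import Pool.Agent.Helper98.DE.St
import Pool.Agent.Helper12.MA.Lib

/-!
# Project DE, module TFB: planar graphs without triangles
-/

set_option autoImplicit false

namespace Pool.Agent.Helper98.DE

open Pool.Agent.Helper51.AJ (IsMinor Planar Apex ExMinor Con Tch)
open Pool.Agent.Helper12.NK (rst Kc cnt)
open Pool.Agent.Helper12.MA (dl Srv nKCA)

open Classical in
private theorem pcc {V : Type} (H : SimpleGraph V) (U : Finset V) :
    pc H U = ((U ×ˢ U).filter fun p => H.Adj p.1 p.2).card := by
  unfold pc
  rw [Finset.card_filter, Finset.sum_product]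
  refine Finset.sum_congr rfl fun a _ => ?_
  rw [Finset.card_filter]

private theorem pc_le_two {V : Type} (H : SimpleGraph V) (U : Finset V) (h : U.card ≤ 2) :
    pc H U ≤ 2 := by
  classical
  rw [pcc]
  have h1 : ((U ×ˢ U).filter fun p => H.Adj p.1 p.2) ⊆ U.offDiag := by
    intro p hp
    rw [Finset.mem_filter, Finset.mem_product] at hp
    rw [Finset.mem_offDiag]
    exact ⟨hp.1.1, hp.1.2, hp.2.ne⟩
  have h2 := Finset.card_le_card h1
  rw [Finset.offDiag_card] at h2
  have h3 : U.card * U.card - U.card ≤ 2 := by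
    interval_cases U.card <;> simp
  refine le_trans ?_ (h2.trans h3)
  exact le_of_eq (by congr)

private theorem pc_three {V : Type} (H : SimpleGraph V) (U : Finset V) (h : U.card = 3)
    (ht : TFr H (U : Set V)) : pc H U ≤ 4 := by
  classical
  have h0 : ∃ a ∈ U, ∃ b ∈ U, a ≠ b ∧ ¬ H.Adj a b := by
    by_contra hcon
    push Not at hcon
    obtain ⟨a, b, c, hab, hac, hbc, rfl⟩ := Finset.card_eq_three.mp h
    exact ht a (by simp) b (by simp) c (by simp) (hcon a (by simp) b (by simp) hab)
      (hcon b (by simp) c (by simp) hbc) (hcon a (by simp) c (by simp) hac)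
  obtain ⟨a, ha, b, hb, hab, hn⟩ := h0
  rw [pcc]
  have h1 : ((U ×ˢ U).filter fun p => H.Adj p.1 p.2) ⊆ (U.offDiag.erase (a, b)).erase (b, a) := by
    intro p hp
    rw [Finset.mem_filter, Finset.mem_product] at hp
    rw [Finset.mem_erase, Finset.mem_erase, Finset.mem_offDiag]
    refine ⟨?_, ?_, hp.1.1, hp.1.2, hp.2.ne⟩
    · rintro rfl
      exact hn hp.2.symm
    · rintro rfl
      exact hn hp.2
  have h2 := Finset.card_le_card h1
  have h3 : (a, b) ∈ U.offDiag := Finset.mem_offDiag.mpr ⟨ha, hb, hab⟩
  have h4 : (b, a) ∈ U.offDiag.erase (a, b) :=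
    Finset.mem_erase.mpr ⟨fun e => hab (Prod.ext_iff.mp e).2, Finset.mem_offDiag.mpr ⟨hb, ha, hab.symm⟩⟩
  rw [Finset.card_erase_of_mem h4, Finset.card_erase_of_mem h3, Finset.offDiag_card, h] at h2
  refine le_trans ?_ h2
  exact le_of_eq (by congr)

private theorem pc_split {V : Type} (H : SimpleGraph V) (U A B : Finset V)
    (h : ∀ a ∈ U, ∀ b ∈ U, H.Adj a b → (a ∈ A ∧ b ∈ A) ∨ (a ∈ B ∧ b ∈ B)) :
    pc H U ≤ pc H A + pc H B := by
  classical
  rw [pcc, pcc, pcc]
  refine le_trans (Finset.card_le_card ?_) (Finset.card_union_le _ _)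
  intro p hp
  rw [Finset.mem_filter, Finset.mem_product] at hp
  rw [Finset.mem_union, Finset.mem_filter, Finset.mem_filter, Finset.mem_product,
    Finset.mem_product]
  rcases h p.1 hp.1.1 p.2 hp.1.2 hp.2 with k | k
  · exact Or.inl ⟨k, hp.2⟩
  · exact Or.inr ⟨k, hp.2⟩

/-- the pairs of the induced graph -/
private theorem pc_induce {V : Type} (G : SimpleGraph V) (U : Finset V) :
    pc (G.induce (U : Set V)) Finset.univ = pc G U := by
  classical
  rw [pcc, pcc]
  refine Finset.card_bij (fun p _ => (p.1.1, p.2.1)) ?_ ?_ ?_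
  · intro p hp
    rw [Finset.mem_filter] at hp ⊢
    exact ⟨Finset.mem_product.mpr ⟨p.1.2, p.2.2⟩, hp.2⟩
  · intro p _ q _ e
    have e1 := (Prod.ext_iff.mp e).1
    have e2 := (Prod.ext_iff.mp e).2
    exact Prod.ext (Subtype.ext e1) (Subtype.ext e2)
  · intro p hp
    rw [Finset.mem_filter, Finset.mem_product] at hp
    refine ⟨(⟨p.1, hp.1.1⟩, ⟨p.2, hp.1.2⟩), ?_, rfl⟩
    rw [Finset.mem_filter]
    exact ⟨Finset.mem_product.mpr ⟨Finset.mem_univ _, Finset.mem_univ _⟩, hp.2⟩

private theorem con_induce {V : Type} (G : SimpleGraph V) (U : Set V) (Y : Set U)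
    (h : Con G (Subtype.val '' Y)) : Con (G.induce U) Y := by
  have e : (G.induce (Subtype.val '' Y)) ≃g ((G.induce U).induce Y) :=
    { toFun := fun x => ⟨⟨x.1, by obtain ⟨y, hy, hx⟩ := x.2; rw [← hx]; exact y.2⟩, by
        obtain ⟨y, hy, hx⟩ := x.2
        have : (⟨x.1, by rw [← hx]; exact y.2⟩ : U) = y := Subtype.ext hx.symm
        rw [this]; exact hy⟩
      invFun := fun y => ⟨y.1.1, ⟨y.1, y.2, rfl⟩⟩
      left_inv := fun x => rfl
      right_inv := fun y => rfl
      map_rel_iff' := Iff.rfl }
  exact e.connected_iff.mp h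

private theorem kc_induce {V : Type} [Finite V] (G : SimpleGraph V) (U : Set V) (h : Kc 3 G U) :
    Kc 3 (G.induce U) Set.univ := by
  refine ⟨?_, fun X hX => ?_⟩
  · have h1 := h.1
    rw [Set.ncard_univ, Nat.card_coe_set_eq]
    exact h1
  · apply con_induce
    have h1 : (Subtype.val '' (Set.univ \ X) : Set V) = U \ (Subtype.val '' X) := by
      ext a
      constructor
      · rintro ⟨y, hy, rfl⟩
        refine ⟨y.2, ?_⟩
        rintro ⟨z, hz, hzy⟩
        exact hy.2 (Subtype.ext hzy ▸ hz)
      · rintro ⟨ha, hn⟩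
        exact ⟨⟨a, ha⟩, ⟨trivial, fun hx => hn ⟨_, hx, rfl⟩⟩, rfl⟩
    rw [h1]
    apply h.2
    rw [Set.ncard_image_of_injective _ Subtype.val_injective]
    exact hX

theorem hTFB : StPCI → StEU3 → StTFB := by
  intro hPCI hEU V _ G U
  classical
  induction hk : U.card using Nat.strong_induction_on generalizing U with
  | _ k ih =>
    intro h3 hP hT
    rcases Nat.lt_or_ge k 4 with h4 | h4
    · have h5 : U.card = 3 := by omega
      have := pc_three G U h5 hT
      omega
    by_cases hc : Kc 3 G (U : Set V)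
    · have h5 := hEU _ (G.induce (U : Set V)) (kc_induce G _ hc)
        ((nKCA V G (U : Set V)).2.2.2.2.2.2.1.mpr hP)
        (fun a _ b _ c _ h1 h2 h3 => hT a.1 a.2 b.1 b.2 c.1 c.2 h1 h2 h3)
      have h6 := (hPCI _ (G.induce (U : Set V)) Finset.univ).2.2.2.2.2.2
      rw [pc_induce] at h6
      have h7 : Fintype.card (U : Set V) = U.card := by simp
      rw [h7] at h5
      omega
    · have h5 : 3 < (U : Set V).ncard := by rw [Set.ncard_coe_finset]; omega
      have h6 : ∃ X : Set V, X.ncard < 3 ∧ ¬ Con G ((U : Set V) \ X) := by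
        by_contra hcon
        push Not at hcon
        exact hc ⟨h5, hcon⟩
      obtain ⟨X, hX3, hXc⟩ := h6
      set S : Set V := (U : Set V) \ X with hS
      have hSne : S.Nonempty := by
        by_contra hcon
        rw [Set.not_nonempty_iff_eq_empty, hS, Set.sdiff_eq_empty] at hcon
        have := Set.ncard_le_ncard hcon (Set.toFinite _)
        omega
      have hnp : ¬ (G.induce S).Preconnected := by
        intro hp
        apply hXc
        have : Nonempty S := hSne.to_subtype
        exact ⟨hp⟩
      unfold SimpleGraph.Preconnected at hnp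
      push Not at hnp
      obtain ⟨u, v, huv⟩ := hnp
      set K : Finset V := U.filter fun w => ∃ h : w ∈ S, (G.induce S).Reachable u ⟨w, h⟩ with hK
      set L : Finset V := U.filter fun w => ∃ h : w ∈ S, ¬ (G.induce S).Reachable u ⟨w, h⟩ with hL
      set Y : Finset V := U.filter fun w => w ∈ X with hY
      have hu : u.1 ∈ K := Finset.mem_filter.mpr ⟨u.2.1, u.2, SimpleGraph.Reachable.refl _⟩
      have hv : v.1 ∈ L := Finset.mem_filter.mpr ⟨v.2.1, v.2, huv⟩
      have hYc : Y.card ≤ 2 := by
        have h1 : (Y : Set V) ⊆ X := by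
          intro a ha
          exact (Finset.mem_filter.mp (Finset.mem_coe.mp ha)).2
        have h2 := Set.ncard_le_ncard h1 (Set.toFinite _)
        rw [Set.ncard_coe_finset] at h2
        omega
      have hKL : Disjoint K L := by
        rw [Finset.disjoint_left]
        intro a ha hb
        obtain ⟨-, h1, h2⟩ := Finset.mem_filter.mp ha
        obtain ⟨-, h3, h4⟩ := Finset.mem_filter.mp hb
        exact h4 h2
      have hKY : Disjoint K Y := by
        rw [Finset.disjoint_left]
        intro a ha hb
        obtain ⟨-, h1, h2⟩ := Finset.mem_filter.mp ha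
        exact h1.2 (Finset.mem_filter.mp hb).2
      have hLY : Disjoint L Y := by
        rw [Finset.disjoint_left]
        intro a ha hb
        obtain ⟨-, h1, h2⟩ := Finset.mem_filter.mp ha
        exact h1.2 (Finset.mem_filter.mp hb).2
      have hU : (K ∪ L) ∪ Y = U := by
        ext a
        rw [Finset.mem_union, Finset.mem_union, Finset.mem_filter, Finset.mem_filter,
          Finset.mem_filter]
        constructor
        · rintro ((h | h) | h)
          · exact h.1
          · exact h.1
          · exact h.1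
        · intro ha
          by_cases hx : a ∈ X
          · exact Or.inr ⟨ha, hx⟩
          · left
            have hs : a ∈ S := ⟨Finset.mem_coe.mpr ha, hx⟩
            by_cases hr : (G.induce S).Reachable u ⟨a, hs⟩
            · exact Or.inl ⟨ha, hs, hr⟩
            · exact Or.inr ⟨ha, hs, hr⟩
      have hc1 : K.card + L.card + Y.card = U.card := by
        rw [← hU, Finset.card_union_of_disjoint, Finset.card_union_of_disjoint hKL]
        rw [Finset.disjoint_union_left]
        exact ⟨hKY, hLY⟩
      have hcK : (K ∪ Y).card = K.card + Y.card := Finset.card_union_of_disjoint hKY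
      have hcL : (L ∪ Y).card = L.card + Y.card := Finset.card_union_of_disjoint hLY
      have hK1 : 1 ≤ K.card := Finset.card_pos.mpr ⟨_, hu⟩
      have hL1 : 1 ≤ L.card := Finset.card_pos.mpr ⟨_, hv⟩
      have hno : ∀ a ∈ K, ∀ b ∈ L, ¬ G.Adj a b := by
        intro a ha b hb hab
        obtain ⟨-, h1, h2⟩ := Finset.mem_filter.mp ha
        obtain ⟨-, h3, h4⟩ := Finset.mem_filter.mp hb
        apply h4
        refine h2.trans (SimpleGraph.Adj.reachable ?_)
        exact hab
      have hsp : pc G U ≤ pc G (K ∪ Y) + pc G (L ∪ Y) := by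
        apply pc_split
        intro a ha b hb hab
        rw [← hU] at ha hb
        simp only [Finset.mem_union] at ha hb ⊢
        rcases ha with (ha | ha) | ha <;> rcases hb with (hb | hb) | hb
        · exact Or.inl ⟨Or.inl ha, Or.inl hb⟩
        · exact absurd hab (hno a ha b hb)
        · exact Or.inl ⟨Or.inl ha, Or.inr hb⟩
        · exact absurd hab.symm (hno b hb a ha)
        · exact Or.inr ⟨Or.inl ha, Or.inl hb⟩
        · exact Or.inr ⟨Or.inl ha, Or.inr hb⟩
        · exact Or.inl ⟨Or.inr ha, Or.inl hb⟩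
        · exact Or.inr ⟨Or.inr ha, Or.inl hb⟩
        · exact Or.inl ⟨Or.inr ha, Or.inr hb⟩
      have hsub : ∀ W : Finset V, W ⊆ U → W.card < k →
          pc G W ≤ 2 ∨ (3 ≤ W.card ∧ pc G W + 8 ≤ 4 * W.card) := by
        intro W hW hWk
        rcases Nat.lt_or_ge W.card 3 with h | h
        · exact Or.inl (pc_le_two G W (by omega))
        · refine Or.inr ⟨h, ih W.card hWk W rfl h ?_ ?_⟩
          · refine (nKCA V G (U : Set V)).2.2.2.2.2.1 (rst G (W : Set V)) (rst G (U : Set V)) ?_ hP
            intro a b hab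
            exact ⟨hab.1, Finset.coe_subset.mpr hW hab.2.1, Finset.coe_subset.mpr hW hab.2.2⟩
          · intro a ha b hb c hc
            exact hT a (Finset.coe_subset.mpr hW ha) b (Finset.coe_subset.mpr hW hb) c
              (Finset.coe_subset.mpr hW hc)
      have hKU : K ∪ Y ⊆ U := Finset.union_subset (Finset.filter_subset _ _) (Finset.filter_subset _ _)
      have hLU : L ∪ Y ⊆ U := Finset.union_subset (Finset.filter_subset _ _) (Finset.filter_subset _ _)
      have h1 := hsub (K ∪ Y) hKU (by omega)
      have h2 := hsub (L ∪ Y) hLU (by omega)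
      omega

end Pool.Agent.Helper98.DE
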