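import Pool.Agent.Helper12.MA.Defs

/-!
# Project DE (MP_d63854_co): degrees and number of edges of the excluded minors of the class of apex graphs

THEOREM.  Let `G` be a finite simple graph with `n` vertices and `m` edges which is not apex although deleting any edge gives
an apex graph (for instance an excluded minor of the class of apex graphs).  Then the sum over all vertices of `max (6 - deg v) 0` is at least
`4`, so `G` has a vertex of degree at most 5, and `m ≤ 3 n - 6 + 2 √(3 (n - 3))`.  If `G` has no triangle then the sum of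
`max (4 - deg v) 0` is at least `2`, so there is a vertex of degree at most 3, and `m ≤ 2 n - 7/2 + 2 √(2 n)`.

From AJ: `IsMinor`, `Planar` (no `K₅`, no `K₃,₃` minor), `Apex`, `ExMinor`, `Con G S` (`S` induces a connected subgraph), `Tch`.
From NK: `rst G U` (restriction to `U`, the other vertices become isolated), `cnt G u v` (contraction of `v` into `u`), `Kc k G U`.
From MA: `dl G x y` (`G` without the edge `x y`), `Srv G s x y` (`s ≠ x`, `s ≠ y` and `G - s - x y` is planar).
The PROVED modules of NK can be used: `nPTR : StPTR`, `nKCA : StKCA`, `nKUR : StKUR`, ... in `Pool.Agent.Helper12.MA.Lib`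
(docstrings in `Pool/Agent/Helper12/NK/St.lean`); Euler's formula: `Pool.Agent.Helper35.PM` (`M_EUL.main`, `D_FLEN`, `M_POT`).
-/

set_option autoImplicit false

namespace Pool.Agent.Helper98.DE

open Pool.Agent.Helper51.AJ (IsMinor Planar Apex ExMinor Con Tch)
open Pool.Agent.Helper12.NK (rst Kc cnt)
open Pool.Agent.Helper12.MA (dl Srv)

open Classical in
/-- the number of ordered pairs of adjacent vertices in `U`, i.e. twice the number of edges inside `U` -/
noncomputable def pc {V : Type} (H : SimpleGraph V) (U : Finset V) : ℕ :=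
  ∑ a ∈ U, (U.filter fun b => H.Adj a b).card

/-- the degree -/
noncomputable def dg {V : Type} (G : SimpleGraph V) (v : V) : ℕ := (G.neighborSet v).ncard

/-- `G` is not apex, but deleting any edge gives an apex graph -/
def Critical {V : Type} (G : SimpleGraph V) : Prop :=
  ¬ Apex G ∧ ∀ x y, G.Adj x y → Apex (G.deleteEdges {s(x, y)})

/-- no triangle inside `U` -/
def TFr {V : Type} (G : SimpleGraph V) (U : Set V) : Prop :=
  ∀ a ∈ U, ∀ b ∈ U, ∀ c ∈ U, G.Adj a b → G.Adj b c → ¬ G.Adj a c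

open Classical in
/-- PCI.  Counting pairs.
Proof.  (1) The sum over `a ∈ insert v U`: for `a ∈ U` the filter over `insert v U` has one more element iff `a` is adjacent to `v`
(`Finset.filter_insert`), the sum of these is the number of neighbours of `v` in `U`; for `a = v` it is the same number.  (2) clear (`Finset.card_le_card`).
(3), (4) only the filter sets of `a = x` and `a = y` change, each loses at most one element (exactly one in (4); `x ≠ y`).  (5) By (1) for `v` (with `U.erase v`) and for `u` (with `(U.erase v).erase u`), for `H` and for `cnt H u v`: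
with `A` = the `H`-neighbours of `u` and `B` = those of `v` in `U'' = U ∖ {u, v}`: `pc H U = pc H U'' + 2 |A| + 2 (|B| + 1)`, `pc (cnt H u v) (U.erase v) = pc H U'' + 2 |A ∪ B|`, `|A ∪ B| + |A ∩ B| = |A| + |B|`, and `A ∩ B` is the filter in the statement (`u`, `v` are not in it).
(6) `neighborSet` = the filter (`Set.ncard_coe_finset`).  (7) `SimpleGraph.sum_degrees_eq_twice_card_edges`. -/
def StPCI : Prop := ∀ (V : Type) [Fintype V] (H : SimpleGraph V) (U : Finset V),
  (∀ v, v ∉ U → pc H (insert v U) = pc H U + 2 * (U.filter fun b => H.Adj v b).card) ∧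
  (∀ H' : SimpleGraph V, (∀ a ∈ U, ∀ b ∈ U, H.Adj a b → H'.Adj a b) → pc H U ≤ pc H' U) ∧
  (∀ x y, pc H U ≤ pc (dl H x y) U + 2) ∧
  (∀ x ∈ U, ∀ y ∈ U, H.Adj x y → pc (dl H x y) U < pc H U) ∧
  (∀ u ∈ U, ∀ v ∈ U, H.Adj u v → pc H U =
    pc (cnt H u v) (U.erase v) + 2 + 2 * (U.filter fun w => H.Adj u w ∧ H.Adj v w).card) ∧
  pc H Finset.univ = ∑ v, dg H v ∧ pc H Finset.univ = 2 * H.edgeSet.ncard

open Classical in
/-- PLB.  A planar graph on `k ≥ 3` vertices has at most `3 k - 6` edges (only the `K₅` minor is used).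
Proof.  Induction on `k = |U|` (for all graphs `G` on the type), and for fixed `k` strong induction on `pc G U`.  `k = 3`: every filter has at most 2 elements, `pc ≤ 6`.  Let `k ≥ 4` and suppose `pc G U ≥ 6 k - 11`.
If `pc G U ≥ 6 k - 9`: there are adjacent `x, y ∈ U`, `dl G x y` is planar too (subgraph, StKCA (6) or StPTR) and has a smaller `pc` (StPCI (4)), so `pc (dl G x y) U ≤ 6 k - 12` by the second induction and `pc G U ≤ 6 k - 10` (StPCI (3)), contradiction.
So `6 k - 11 ≤ pc G U ≤ 6 k - 10`.  (a) If `u, v ∈ U` are adjacent and have `t` common neighbours in `U` then `cnt G u v` on `U.erase v` is planar (StKCA (8)), so by induction `pc G U ≤ 6 (k - 1) - 12 + 2 + 2 t` (StPCI (5)), so `t ≥ 3`.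
(b) As `pc G U < 6 k` some `v ∈ U` has at most 5 neighbours in `U`; let `N` be the set of them (`v ∉ N`).  If `N = ∅` then `pc G U = pc G (U.erase v) ≤ 6 (k - 1) - 12` (StPCI (1)), contradiction.  By (a) every `u ∈ N` is adjacent to at least 3 elements of `N`.  So `|N| ≥ 4`.
If some four elements of `N` are mutually adjacent then with `v` they form a `K₅`.  This is so if `|N| = 4`.  So `|N| = 5`, every element of `N` is nonadjacent to at most one other, some `a ≠ b` in `N` are nonadjacent, `N = {a, b, c, d, e}`, `a` and `b` are adjacent to `c, d, e`; among `c, d, e` two are adjacent, say `d, e`.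
The branch sets `{a, c}, {b}, {d}, {e}, {v}` form a `K₅` minor of `rst G U` (AJ.con_singleton, AJ.con_pair), contradiction. -/
def StPLB : Prop := ∀ (V : Type) [Fintype V] (G : SimpleGraph V) (U : Finset V), 3 ≤ U.card →
  Planar (rst G (U : Set V)) → pc G U + 12 ≤ 6 * U.card

/-- EU3.  A 3-connected planar graph without triangles has at most `2 n - 4` edges.
Proof.  StKUR (for `U = Set.univ`): there is a planar rotation system `R : PM.Rot (rst G Set.univ)`; `rst G Set.univ = G` (ext), so `R : PM.Rot G`.  Euler's formula (`PM.M_EUL.main PM.M_POT.main` or similar): `n - m + f = 2`, `f` = the number of orbits of `R.φ` on the darts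
(`G` is connected: `Kc 3` with `X = ∅`).  Every orbit has at least 4 elements: as in `PM.D_FLEN` (length 1: `(R.φ d).fst = d.snd`; length 2: then `R.φ d = d.symm`, `R.r d.symm = d.symm`, so `d.snd` has only one neighbour (`R.trans`), but it has at least 3 (StKCA (3)); length 3: a triangle).
The number of darts is `2 m`, so `4 f ≤ 2 m` and `2 m ≤ 4 n - 8`. -/
def StEU3 : Prop := ∀ (V : Type) [Fintype V] (G : SimpleGraph V), Kc 3 G Set.univ → Planar G → TFr G Set.univ →
  2 * G.edgeSet.ncard + 8 ≤ 4 * Fintype.card V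

/-- TFB.  A planar graph without triangles on `k ≥ 3` vertices has at most `2 k - 4` edges.
Proof.  Strong induction on `k = |U|`.  `|U| = 3`: if all filters in `pc` had 2 elements there would be a triangle; at most two of the three pairs are adjacent, `pc ≤ 4`.  `|U| ≥ 4`.  If `Kc 3 G U`: StEU3 for `G.induce U` on the type `U` (`Kc 3` and planarity carry over: StKCA (7); `pc G U = 2 * |edges|` of the induced graph, or
use StPCI (7) for the type `U`).  Otherwise there is `X` with `|X| < 3` such that `G` on `U ∖ X` is not connected (we may replace `X` by `X ∩ U`, so `X ⊆ U`); `U ∖ X` is nonempty, so `U ∖ X = K₁ ∪ K₂`, nonempty, disjoint, without edges between them.  `U₁ = K₁ ∪ X`, `U₂ = K₂ ∪ X`: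
`pc G U ≤ pc G U₁ + pc G U₂` and `|U₁| + |U₂| = |U| + |X| ≤ |U| + 2`, `|Uᵢ| < |U|`.  If `|U₁|, |U₂| ≥ 3` then by induction `pc G U ≤ 4 (|U| + 2) - 16 = 4 |U| - 8`.  If `|U₁| ≤ 2` then `|X| ≤ 1`, `pc G U₁ ≤ 2`, `|U₂| = |U| - |K₁|`: if `|U₂| ≥ 3` then `pc G U ≤ 2 + 4 |U₂| - 8 ≤ 4 |U| - 8`
(as `|U₂| ≤ |U| - 1`); if `|U₂| ≤ 2` then `pc G U ≤ 4 ≤ 4 |U| - 8`. -/
def StTFB : Prop := ∀ (V : Type) [Fintype V] (G : SimpleGraph V) (U : Finset V), 3 ≤ U.card →
  Planar (rst G (U : Set V)) → TFr G (U : Set V) → pc G U + 8 ≤ 4 * U.card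

/-- DG4.  Every nonplanar graph has a nonplanar subgraph in which a given vertex has at most 4 neighbours.
Proof.  Let `B` be `K₅` or `K₃,₃` (`Fin 3 ⊕ Fin 3`) and `φ` a model of `B` in `H`; every vertex `w` of `B` has at most four neighbours in `B`: fix `nb w : Fin 4 → W` with `B.Adj w w' → ∃ j, w' = nb w j`.  If `z` is in no branch set let `K` be `H` without the edges at `z`.  Let `z ∈ φ i`.
For every `j : Fin 4` with `B.Adj i (nb i j)` choose `x j ∈ φ i`, `y j ∈ φ (nb i j)` adjacent in `H`.  If `x j = z` let `c j = y j`, `T j = {z}`.  Otherwise let `C` be the component of `x j` in `φ i ∖ {z}` (the set of the vertices reachable from `x j` in `H.induce (φ i ∖ {z})`); since `φ i` is connected there is a neighbour `c j` of `z` in `C`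
(otherwise no edge leaves `C` in `φ i`); `T j = insert z C`.  For the other `j`: `c j = z`, `T j = {z}`.  `K`: the edges of `H` which do not contain `z`, and the edges `z (c j)` of `H`.  Then the branch sets `φ w` (`w ≠ i`) and `⋃ j, T j` in place of `φ i` are a model of `B` in `K`: the edges inside `C` and inside `φ w` do not contain `z`,
so all these sets are connected in `K` (for the union: `SimpleGraph.induce_connected_of_patches` with `u = z`), the edge `x j, y j` is an edge of `K` (`y j ≠ z`; if `x j = z` then `y j = c j`), the edges between other branch sets do not contain `z`. -/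
def StDG4 : Prop := ∀ (V : Type) [Finite V] (H : SimpleGraph V) (z : V), ¬ Planar H →
  ∃ K : SimpleGraph V, (∀ a b, K.Adj a b → H.Adj a b) ∧ ¬ Planar K ∧ ∃ c : Fin 4 → V, ∀ y, K.Adj z y → ∃ j, y = c j

/-- CRI.  The consequences of `Critical` which are used.
Proof.  (1) `Planar (rst G {x}ᶜ) ↔ Planar (G.induce {x}ᶜ)` (StKCA (7)), and `G` is not apex.  (2) A graph with at most 5 vertices is apex: the proof of `NK.small` (Pool/Agent/Helper12/NK/Fin.lean) shows `6 ≤ Nat.card V` (its `key`; or: a nonplanar graph has at least 5 vertices (5 or 6 disjoint branch sets) and `G.induce {v}ᶜ` is not planar).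
(3) `G' = G.deleteEdges {s(x, y)}` is apex, `G' = dl G x y` (ext).  If `Planar G'`: take any `s ≠ x, y` (there are at least 6 vertices), `rst (dl G x y) {s}ᶜ` is a subgraph of `G'`.  If `Planar (G'.induce {s}ᶜ)`, so `Planar (rst (dl G x y) {s}ᶜ)`: `s = x` or `s = y` is impossible, because then this is `rst G {s}ᶜ`, contradiction to (1). -/
def StCRI : Prop := ∀ (V : Type) [Finite V] (G : SimpleGraph V), Critical G →
  (∀ x, ¬ Planar (rst G {x}ᶜ)) ∧ 6 ≤ Nat.card V ∧ ∀ x y, G.Adj x y → ∃ s, Srv G s x y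

/-- EXC.  Excluded minors are critical.
Proof.  `G.deleteEdges {s(x, y)}` is a minor of `G` (AJ.isMinor_of_hom with `id`) and not isomorphic to `G` (an isomorphism would give `G` the same number of edges, but it has fewer). -/
def StEXC : Prop := ∀ (V : Type) [Finite V] (G : SimpleGraph V), ExMinor G → Critical G

/-- SVB.  The bound given by a server.
Proof.  `U = Finset.univ.erase s`, `|U| = n - 1 ≥ 3`; `dl G x y` on `U` is planar.  StPLB: `pc (dl G x y) U + 12 ≤ 6 (n - 1)`.  StPCI (1) (`insert s U = univ`): `∑ dg = pc G univ = pc G U + 2 dg s`, and `pc G U ≤ pc (dl G x y) U + 2` (StPCI (3)).  Same with StTFB (`TFr` for `dl G x y` on `U`). -/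
def StSVB : Prop := ∀ (V : Type) [Fintype V] (G : SimpleGraph V), 5 ≤ Fintype.card V → ∀ s x y, Srv G s x y →
  (∑ v, dg G v) + 16 ≤ 6 * Fintype.card V + 2 * dg G s ∧
  (TFr G Set.univ → (∑ v, dg G v) + 10 ≤ 4 * Fintype.card V + 2 * dg G s)

/-- YB4.  A vertex `b` serves at most four edges at `z`.
Proof.  `z = b`: the set is empty (`Srv`).  `H = rst G {b}ᶜ` is not planar; StDG4 gives `K` and `c`.  If `G.Adj z y`, `Srv G b z y` and `¬ K.Adj z y` then `K` is a subgraph of `rst (dl G z y) {b}ᶜ`, which is planar, contradiction.  So `y` is one of the `c j`; the set is contained in `Set.range c` (at most 4 elements). -/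
def StYB4 : Prop := ∀ (V : Type) [Finite V] (G : SimpleGraph V), (∀ x, ¬ Planar (rst G {x}ᶜ)) → ∀ b z,
  {y | G.Adj z y ∧ Srv G b z y}.ncard ≤ 4

/-- HIG.  The sum of the degrees of `k ≥ 3` vertices.
Proof.  `P = dl G x y`, `U = Finset.univ.erase s`, `Z ⊆ U`, `W = U \ Z`.  `S = ∑ z ∈ Z, (U.filter (P.Adj z)).card`.  `pc P U + pc P Z ≥ 2 S`: `pc P U = ∑_{a ∈ Z} (number in Z + number in W) + ∑_{a ∈ W} (number in Z + number in W)` and `∑_{a ∈ W} (number in Z) = ∑_{a ∈ Z} (number in W)` (symmetry, `Finset.sum_comm`), so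
`pc P U ≥ pc P Z + 2 ∑_{a ∈ Z} (number in W)` and `S = pc P Z + ∑_{a ∈ Z} (number in W)`.  StPLB: `pc P U + 12 ≤ 6 (n - 1)`, `pc P Z + 12 ≤ 6 k`, so `2 S + 30 ≤ 6 n + 6 k`.  `∑ z ∈ Z, dg G z ≤ S + k + 2` (each `z` loses at most `s`; the edge `x y` is lost at most for `z = x` and for `z = y`).
So `∑ dg + 13 ≤ 3 n + 4 k`.  Without triangles (StTFB): `pc P U + 8 ≤ 4 (n - 1)`, `pc P Z + 8 ≤ 4 k`, `2 S + 20 ≤ 4 n + 4 k`, `∑ dg + 8 ≤ 2 n + 3 k`. -/
def StHIG : Prop := ∀ (V : Type) [Fintype V] (G : SimpleGraph V), 5 ≤ Fintype.card V → ∀ s x y, Srv G s x y →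
  ∀ Z : Finset V, s ∉ Z → 3 ≤ Z.card →
  (∑ z ∈ Z, dg G z) + 13 ≤ 3 * Fintype.card V + 4 * Z.card ∧
  (TFr G Set.univ → (∑ z ∈ Z, dg G z) + 8 ≤ 2 * Fintype.card V + 3 * Z.card)

/-- CNT.  Vertices of small degree.  (Truncated subtraction of natural numbers.)
Proof.  Let `Z` be the set of the servers (`s` with `Srv G s x y` for some edge `x y`), nonempty (`G` has an edge, otherwise it is planar; StCRI), `z ∈ Z` of least degree `D`.  `n = |V|`.  StSVB: `∑ dg + 16 ≤ 6 n + 2 D`.  If `D ≤ 6` then `∑ (6 - dg v) ≥ 6 n - ∑ dg ≥ 16 - 2 D ≥ 4`.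
If `D ≥ 7` there is an edge `z y`, it has a server `z' ≠ z` of degree `D' ≥ D`: `∑ (6 - dg v) ≥ ∑_{v ≠ z, z'} (6 - dg v) = 6 n - ∑ dg + (D - 6) + (D' - 6) ≥ 16 - 2 D + 2 D - 12 = 4` (work in the integers: `((6 - dg v : ℕ) : ℤ) ≥ 6 - dg v` and `≥ 0`).
Without triangles: `∑ dg + 10 ≤ 4 n + 2 D`; `D ≤ 4`: `∑ (4 - dg v) ≥ 10 - 2 D ≥ 2`; `D ≥ 5`: `≥ 10 - 2 D + (D - 4) + (D' - 4) ≥ 2`. -/
def StCNT : Prop := ∀ (V : Type) [Fintype V] (G : SimpleGraph V), Critical G →
  4 ≤ ∑ v, (6 - dg G v) ∧ (TFr G Set.univ → 2 ≤ ∑ v, (4 - dg G v))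

/-- SQB.  The number of edges.
Proof.  `Z`, `z`, `D` as in StCNT, `n = |V| ≥ 6` (StCRI), `2 m = ∑ dg` (StPCI (6), (7)), `k = |Z| - 1`.  (1) `D ≤ 4 k`: the neighbours `y` of `z` are covered by the sets of StYB4 for `b ∈ Z ∖ {z}` (the edge `z y` has a server `b`, `b ≠ z`).  (2) If `k ≥ 3` then `k D ≤ ∑ w ∈ Z ∖ {z}, dg w ≤ 3 n + 4 k - 13` (StHIG for the server `z`).
StSVB: `m ≤ 3 n - 8 + D`.  If `D ≤ 8` then `m ≤ 3 n` and `2 √(3 (n - 3)) ≥ 6`.  If `D ≥ 9` then `k ≥ 3`, `k (D - 4) ≤ 3 n - 13`, `D (D - 4) ≤ 4 k (D - 4) ≤ 12 n - 52`, `(D - 2)² ≤ 12 (n - 4)`, `D ≤ 2 + 2 √(3 (n - 3))`.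
Without triangles: `m ≤ 2 n - 5 + D`; `D ≤ 8`: `m ≤ 2 n + 3` and `2 √(2 n) ≥ 13/2` as `8 n ≥ 48`; `D ≥ 9`: `k D ≤ 2 n + 3 k - 8`, `D (D - 3) ≤ 8 n - 32`, `(D - 3/2)² ≤ 8 n`, `D ≤ 3/2 + 2 √(2 n)`. -/
def StSQB : Prop := ∀ (V : Type) [Fintype V] (G : SimpleGraph V), Critical G →
  (G.edgeSet.ncard : ℝ) ≤ 3 * (Fintype.card V : ℝ) - 6 + 2 * Real.sqrt (3 * ((Fintype.card V : ℝ) - 3)) ∧
  (TFr G Set.univ → (G.edgeSet.ncard : ℝ) ≤ 2 * (Fintype.card V : ℝ) - 7 / 2 + 2 * Real.sqrt (2 * (Fintype.card V : ℝ)))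

end Pool.Agent.Helper98.DE
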