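import Pool.Agent.Helper98.DE.St

/-!
# Project DE, part 2: a better bound for the number of edges
-/

set_option autoImplicit false

namespace Pool.Agent.Helper98.DE

open Pool.Agent.Helper51.AJ (IsMinor Planar Apex ExMinor Con Tch)
open Pool.Agent.Helper12.NK (rst Kc cnt)
open Pool.Agent.Helper12.MA (dl Srv)

/-- HG2.  The sum of the degrees of `k ≥ 3` vertices, second bound.
Proof.  `P = dl G x y`, `U = Finset.univ.erase s`, `Z ⊆ U`, `W = U \ Z`, `n = |V|`.  `e = ∑ a ∈ Z, (W.filter (P.Adj a)).card`.  The graph `B` of the edges of `P` between `Z` and `W` (`B.Adj a b ↔ P.Adj a b ∧ (a ∈ Z ∧ b ∈ W ∨ a ∈ W ∧ b ∈ Z)`) has no triangle and `rst B U` is planar (subgraph), so StTFB: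
`2 e + 8 = pc B U + 8 ≤ 4 (n - 1)`, `e ≤ 2 n - 6`.  (`pc B U = 2 e`: the sum over `a ∈ Z` is `e`, the sum over `a ∈ W` too, by symmetry, `Finset.sum_comm`.)  StPLB: `pc P Z + 12 ≤ 6 k`.  `∑ z ∈ Z, (U.filter (P.Adj z)).card = pc P Z + e ≤ 6 k - 12 + 2 n - 6`, and `∑ z ∈ Z, dg G z` is at most this plus `k + 2`
(each `z` loses at most the neighbour `s`; the edge `x y` is lost at most for `z = x` and for `z = y`).  So `∑ dg + 16 ≤ 2 n + 7 k`. -/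
def StHG2 : Prop := ∀ (V : Type) [Fintype V] (G : SimpleGraph V), 5 ≤ Fintype.card V → ∀ s x y, Srv G s x y →
  ∀ Z : Finset V, s ∉ Z → 3 ≤ Z.card → (∑ z ∈ Z, dg G z) + 16 ≤ 2 * Fintype.card V + 7 * Z.card

/-- SQ2.  The number of edges, second bound.
Proof.  `Z` the set of the servers (`s` with `Srv G s x y` for some edge `x y`), nonempty, `z ∈ Z` of least degree `D`, `n = |V| ≥ 6` (StCRI), `2 m = ∑ dg` (StPCI (6), (7)), `k = |Z| - 1`.  `D ≤ 4 k`: the neighbours `y` of `z` are covered by the sets of StYB4 for `b ∈ Z ∖ {z}` (the edge `z y` has a server `b ≠ z`).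
StSVB: `2 m + 16 ≤ 6 n + 2 D`, so `m ≤ 3 n - 8 + D`.  If `D ≤ 8` then `m ≤ 3 n`, and `2 √(2 n) ≥ 9/2`.  If `D ≥ 9` then `k ≥ 3`, `k D ≤ ∑ w ∈ Z ∖ {z}, dg w ≤ 2 n + 7 k - 16` (StHG2 for the server `z`), so `k (D - 7) ≤ 2 n - 16`; `3 (D - 7) ≤ 2 n - 16`, `3 m ≤ 9 n - 24 + 3 D ≤ 11 n - 19`;
and `D (D - 7) ≤ 4 k (D - 7) ≤ 8 n - 64`, `(D - 7/2)² ≤ 8 n`, `D ≤ 7/2 + 2 √(2 n)`. -/
def StSQ2 : Prop := ∀ (V : Type) [Fintype V] (G : SimpleGraph V), Critical G →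
  (G.edgeSet.ncard ≤ 3 * Fintype.card V ∨ 3 * G.edgeSet.ncard + 19 ≤ 11 * Fintype.card V) ∧
  (G.edgeSet.ncard : ℝ) ≤ 3 * (Fintype.card V : ℝ) - 9 / 2 + 2 * Real.sqrt (2 * (Fintype.card V : ℝ))

end Pool.Agent.Helper98.DE
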