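import Pool.Agent.Helper98.DE.St2

/-!
# Project DE, part 3: vertices of degree 3 in a triangle
-/

set_option autoImplicit false

namespace Pool.Agent.Helper98.DE

open Pool.Agent.Helper51.AJ (IsMinor Planar Apex ExMinor Con Tch)
open Pool.Agent.Helper12.NK (rst Kc cnt)
open Pool.Agent.Helper12.MA (dl ae Srv)

/-- TRI.  Two neighbours of a vertex of degree at most 3 in a planar graph can be joined.
Proof.  Suppose `J' = ae J x y` has a model `φ` of `B = K₅` or `B = K₃,₃`.  If `x` or `y` is in no branch set then `φ` is a model in `J` (no edge `x y` is used).  Let `x ∈ φ a`, `y ∈ φ b`.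
(i) `v` in no branch set: `insert v (φ a)` in place of `φ a` is a model in `J` (the edge `x y` is replaced by `v y` and, inside `φ a` if `a = b`, by `x v`, `v y`).  (ii) `v ∈ φ i` with `i = a` or `i = b`: the same `φ` is a model in `J` (if `a = b = i` replace `x y` by the path `x v y`; if `i = a ≠ b` replace it by `v y` between `φ a` and `φ b`; if `i = b ≠ a` by `v x`).
(iii) `a = b ≠ i` and `v ∈ φ i`: impossible to use (i), but: if `φ i = {v}` then `v` has at most three neighbours and two of them, `x` and `y`, are in the same branch set, so `i` has at most two neighbours in `B`, impossible.  If `φ i ≠ {v}` then `v` has exactly one neighbour in `φ i`, it is `t`, and `φ i ∖ {v}` is connected;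
take `φ i ∖ {v}` and `insert v (φ a)`: the edge between them (if needed) is `t v`, the other edges of `φ i` do not start in `v` (the neighbours of `v` are `x, y ∈ φ a` and `t`); the path `x v y` replaces `x y`.
(iv) `a, b, i` different, `v ∈ φ i`, `φ i = {v}`: `i` has at most three neighbours in `B`, so `B = K₃,₃` and `a`, `b` are on the same side, `x y` is not needed: `φ` is a model in `J`.
(v) `a, b, i` different, `v ∈ φ i`, `φ i ≠ {v}`: `t ∈ φ i`, `φ i ∖ {v}` is connected.  If `a b` is not an edge of `B` then `φ` is a model in `J`.  So `a b` is an edge of `B`.  `B = K₅`, `c, d` the two other vertices: `{v}, φ c, φ d` against `φ i ∖ {v}, φ a, φ b` is a model of `K₃,₃` in `J`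
(`v t`, `v x`, `v y`; the edges between `φ i` and `φ c`, `φ d` do not start in `v`; the edge `x y` is not used).  `B = K₃,₃`: `a`, `b` are on different sides; by symmetry (exchange `x`, `y`) let `i` be on the side of `b`: take `φ i ∖ {v}` and `insert v (φ a)`: the edge from `φ i` to `φ a` is `t v`, from `φ a` to `φ b` it is `v y`, and the other
edges of `φ i` do not start in `v` (`i b` is not an edge of `B`). -/
def StTRI : Prop := ∀ (V : Type) [Finite V] (J : SimpleGraph V) (v x y t : V), x ≠ y → J.Adj v x → J.Adj v y →
  (∀ a, J.Adj v a → a = x ∨ a = y ∨ a = t) → Planar J → Planar (ae J x y)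

/-- CUB.  A vertex of degree 3 in a triangle.
Proof.  Let `N(v) = {x, y, t}`, `x y` an edge.  It has a server `s ∉ {x, y}` (StCRI).  Suppose `s ≠ v`.  `J = rst (dl G x y) {s}ᶜ` is planar, `v` is adjacent to `x`, `y` in `J` and to no vertex except `x, y, t`.  By StTRI `ae J x y` is planar, and it contains `rst G {s}ᶜ`, contradiction to StCRI (1).
So `s = v`, and StSVB gives `∑ dg + 16 ≤ 6 n + 6`; `∑ dg = 2 m` (StPCI (6), (7)). -/
def StCUB : Prop := ∀ (V : Type) [Fintype V] (G : SimpleGraph V) (v x y t : V), Critical G → G.Adj x y → G.Adj v x → G.Adj v y →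
  (∀ a, G.Adj v a → a = x ∨ a = y ∨ a = t) → Srv G v x y ∧ G.edgeSet.ncard + 5 ≤ 3 * Fintype.card V

end Pool.Agent.Helper98.DE
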